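import Pool.Agent.Lib_helper72.MC12c.Q
import Pool.Agent.Lib_helper72.MC12c.T

/-!
# c12c: all checks
-/

set_option autoImplicit false
set_option maxRecDepth 100000

namespace Pool.Agent.MC12c

open Pool.Agent.KC72 Pool.Agent.MC

theorem c12c_0 : Num c12c c12c_t := by decide +kernel

theorem c12c_om : xm c12c.kb c12c.ko (c12c.m * c12c.N) c12c.Om = true := by decide +kernel

theorem c12c_b : cB c12c = true := by decide +kernel

theorem c12c_r0 : blk (cR c12c) c12c.rels 60 0 = true := by decide +kernel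

theorem c12c_r1 : blk (cR c12c) c12c.rels 60 1 = true := by decide +kernel

theorem c12c_r2 : blk (cR c12c) c12c.rels 60 2 = true := by decide +kernel

theorem c12c_r3 : blk (cR c12c) c12c.rels 60 3 = true := by decide +kernel

theorem c12c_r4 : blk (cR c12c) c12c.rels 60 4 = true := by decide +kernel

theorem c12c_r' : ∀ k < 5, blk (cR c12c) c12c.rels 60 k = true
  | 0, _ => c12c_r0
  | 1, _ => c12c_r1
  | 2, _ => c12c_r2
  | 3, _ => c12c_r3
  | 4, _ => c12c_r4
  | k + 5, h => absurd h (by omega)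

theorem c12c_g : allI (fun c g => cG c12c.DG c12c_t.B c12c_t.MA c12c_t.P2 c12c_t.MB c g) c12c.G 0 = true := by decide +kernel

theorem c12c_g' : c12c.toCert.chk3' = true := by decide +kernel

theorem c12c_k1 : (c12c.cls.take c12c.m).map (prF c12c_t.p c12c.n c12c.r) = c12c_t.PR := by decide +kernel

theorem c12c_k2 : (c12c.cls.take c12c.m).map (pkw (Int.ofNat c12c_t.Z) (Int.ofNat (Nat.pow c12c_t.Z c12c.n)) c12c.r) = c12c_t.PM := by decide +kernel

theorem c12c_k3 : c12c_t.P2.map (fun x => pmb (Int.ofNat c12c_t.B) x.1 x.2 (c12c.cls.take c12c.m)) = c12c_t.MB := by decide +kernel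

theorem c12c_e : c12c.cls.all (fun e => bdE c12c_t.MA c12c.n e.1.2 && bdE c12c_t.MA c12c.n e.2.2) = true := by decide +kernel

theorem c12c_xq : c12c_t.XQ.all (fun X => X.all (xm c12c_t.a c12c_t.d c12c_t.S)) = true := by decide +kernel

theorem c12c_xt : c12c_t.XT.all (fun X => X.all (xm c12c_t.a' c12c_t.d' c12c_t.K)) = true := by decide +kernel

/-- all checks -/
theorem c12c_ok : ROk c12c :=
  rOk_of (A := c12c_t) (l4 := 60) (n4 := 5) (lQ := 40) (nQ := 10) (lT := 40) (nT := 10) c12c_0 c12c_om c12c_b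
    (by decide) (by decide +kernel) c12c_r' c12c_g c12c_g' ⟨c12c_k1, c12c_k2, c12c_k3⟩ c12c_e c12c_xq c12c_xt (by decide) (by decide +kernel) c12c_q'
    (by decide) (by decide +kernel) c12c_t'

end Pool.Agent.MC12c
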