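import Pool.Agent.Lib_helper72.MC12c.Dat

/-!
# c12c: the coordinates
-/

set_option autoImplicit false
set_option maxRecDepth 100000

namespace Pool.Agent.MC12c

open Pool.Agent.KC72 Pool.Agent.MC

theorem c12c_q0 : blk (cQ c12c c12c_t) c12c.Q 40 0 = true := by decide +kernel

theorem c12c_q1 : blk (cQ c12c c12c_t) c12c.Q 40 1 = true := by decide +kernel

theorem c12c_q2 : blk (cQ c12c c12c_t) c12c.Q 40 2 = true := by decide +kernel

theorem c12c_q3 : blk (cQ c12c c12c_t) c12c.Q 40 3 = true := by decide +kernel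

theorem c12c_q4 : blk (cQ c12c c12c_t) c12c.Q 40 4 = true := by decide +kernel

theorem c12c_q5 : blk (cQ c12c c12c_t) c12c.Q 40 5 = true := by decide +kernel

theorem c12c_q6 : blk (cQ c12c c12c_t) c12c.Q 40 6 = true := by decide +kernel

theorem c12c_q7 : blk (cQ c12c c12c_t) c12c.Q 40 7 = true := by decide +kernel

theorem c12c_q8 : blk (cQ c12c c12c_t) c12c.Q 40 8 = true := by decide +kernel

theorem c12c_q9 : blk (cQ c12c c12c_t) c12c.Q 40 9 = true := by decide +kernel

theorem c12c_q' : ∀ k < 10, blk (cQ c12c c12c_t) c12c.Q 40 k = true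
  | 0, _ => c12c_q0
  | 1, _ => c12c_q1
  | 2, _ => c12c_q2
  | 3, _ => c12c_q3
  | 4, _ => c12c_q4
  | 5, _ => c12c_q5
  | 6, _ => c12c_q6
  | 7, _ => c12c_q7
  | 8, _ => c12c_q8
  | 9, _ => c12c_q9
  | k + 10, h => absurd h (by omega)

end Pool.Agent.MC12c
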